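import Mathlib
import Pool.Agent.Work.MP_79b32e_an.Defs
import Pool.Agent.Work.MP_79b32e_an.Final

set_option autoImplicit false

open MeasureTheory Pool.Agent.Work.MP_79b32e_an

/-- The CSL `N ⊗ N` on `L²([0,1]²)` (`N` the Volterra nest), a commutative subspace lattice of
width two, has an algebra with no distance constant. -/
theorem Pool.Agent.Results.MP_79b32e_an.NoDistanceConstant.result :
    IsCSL volterraTensor ∧ HasWidth 2 volterraTensor ∧
    ¬ HasDistanceConstant (AlgOf volterraTensor) ∧ ExceedsEveryConstant volterraTensor :=
  noDistanceConstant_final
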